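import Mathlib
import Pool.Agent.R908.InjDefs

/-!
# Choice of a shift, rational bases, complex conjugation
-/

set_option autoImplicit false

open Polynomial

namespace Run7.h152.LI

open Pool.Agent.R908

section Pick

variable {Ω : Type*} [Field Ω] [CharZero Ω]

/-- For some natural number `c` the multisets of at most `n` members of `R` are determined by the
products of the `a + c`. -/
theorem exists_shift (R : Finset Ω) (n : ℕ) : ∃ c : ℕ, ∀ L L' : Multiset Ω,
    (∀ a ∈ L, a ∈ R) → (∀ a ∈ L', a ∈ R) → Multiset.card L ≤ n → Multiset.card L' ≤ n →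
    (L.map fun a => a + (c : Ω)).prod = (L'.map fun a => a + (c : Ω)).prod → L = L' := by
  classical
  set T : Finset (Multiset Ω) := (Multiset.powerset (n • R.val)).toFinset with hT
  have hmem : ∀ L : Multiset Ω, (∀ a ∈ L, a ∈ R) → Multiset.card L ≤ n → L ∈ T := by
    intro L hL hc
    rw [hT, Multiset.mem_toFinset, Multiset.mem_powerset, Multiset.le_iff_count]
    intro a
    by_cases ha : a ∈ L
    · rw [Multiset.count_nsmul]
      have h1 : Multiset.count a R.val = 1 := Multiset.count_eq_one_of_mem R.nodup (hL a ha)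
      rw [h1, mul_one]
      exact (Multiset.count_le_card a L).trans hc
    · rw [Multiset.count_eq_zero.2 ha]
      exact Nat.zero_le _
  set p : Multiset Ω → Polynomial Ω := fun L => ((L.map fun a => -a).map fun a => X - C a).prod
    with hp
  have hpe : ∀ (L : Multiset Ω) (c : Ω), (p L).eval c = (L.map fun a => a + c).prod := by
    intro L c
    rw [hp]
    simp only [Multiset.map_map, Polynomial.eval_multiset_prod, Function.comp_apply, eval_sub,
      eval_X, eval_C, sub_neg_eq_add]
    congr 1
    apply Multiset.map_congr rfl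
    intro a _
    rw [add_comm]
  have hpi : ∀ L L', p L = p L' → L = L' := by
    intro L L' h
    have h1 := congrArg Polynomial.roots h
    rw [hp] at h1
    beta_reduce at h1
    rw [Polynomial.roots_multiset_prod_X_sub_C, Polynomial.roots_multiset_prod_X_sub_C] at h1
    exact Multiset.map_injective neg_injective h1
  set B : Finset Ω := (T ×ˢ T).biUnion fun x => (p x.1 - p x.2).roots.toFinset with hB
  obtain ⟨c, hc⟩ : ∃ c : ℕ, (c : Ω) ∉ B := by
    by_contra hcon
    push Not at hcon
    have h1 : (Set.range (Nat.cast : ℕ → Ω)).Finite :=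
      B.finite_toSet.subset (by rintro _ ⟨c, rfl⟩; exact hcon c)
    exact Set.infinite_range_of_injective (Nat.cast_injective (R := Ω)) h1
  refine ⟨c, fun L L' hL hL' hn hn' h => ?_⟩
  by_contra hne
  apply hc
  rw [hB, Finset.mem_biUnion]
  refine ⟨(L, L'), Finset.mem_product.2 ⟨hmem L hL hn, hmem L' hL' hn'⟩, ?_⟩
  rw [Multiset.mem_toFinset, mem_roots (sub_ne_zero.2 fun h1 => hne (hpi _ _ h1)), IsRoot.def,
    eval_sub, hpe, hpe, h, sub_self]

end Pick

section Basis

variable {K : Type*} [Field K] [CharZero K] {M : Type*} [AddCommGroup M] [Module ℚ M]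
  {V : Type*} [AddCommGroup V] [Module K V] [Module.Finite K V]

/-- A rational basis of the classes of cycles in a subspace, which is linearly independent over
`K`. -/
theorem exists_basis {c : M →+ V} (hc : ∀ (q : ℚ) (z : M), c (q • z) = (q : K) • c z)
    {P N : M → Prop} (hP : IndependenceLifts K c P) (hNP : ∀ z, N z → P z)
    {z₀ : M} (hz₀ : N z₀) (hne : c z₀ ≠ 0) :
    ∃ (r : ℕ) (z : Fin (r + 1) → M), (∀ i, N (z i)) ∧ LinearIndependent K (fun i => c (z i)) ∧
      ∀ y, N y → ∃ q : Fin (r + 1) → ℚ, c y = ∑ i, (q i : K) • c (z i) := by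
  classical
  set S : Set V := {x | ∃ z, N z ∧ c z = x} with hS
  obtain ⟨b, hb, hspan, hli⟩ := exists_linearIndependent K S
  have hfin : b.Finite := hli.setFinite
  have := hfin.fintype
  have hcard : 0 < Fintype.card b := by
    rw [Fintype.card_pos_iff]
    by_contra hcon
    have h1 : b = ∅ := Set.isEmpty_coe_sort.1 (not_nonempty_iff.1 hcon)
    rw [h1, Submodule.span_empty] at hspan
    have h2 : c z₀ ∈ Submodule.span K S := Submodule.subset_span ⟨z₀, hz₀, rfl⟩
    rw [← hspan, Submodule.mem_bot] at h2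
    exact hne h2
  obtain ⟨r, hr⟩ := Nat.exists_eq_succ_of_ne_zero hcard.ne'
  have e : Fin (r + 1) ≃ b := (Fintype.equivFinOfCardEq hr).symm
  have hz : ∀ i, ∃ z, N z ∧ c z = (e i : V) := fun i => hb (e i).2
  choose z hzN hzc using hz
  have hli' : LinearIndependent K (fun i => c (z i)) := by
    have h1 : (fun i => c (z i)) = (fun x : b => (x : V)) ∘ e := by
      funext i
      exact hzc i
    rw [h1]
    exact hli.comp e e.injective
  refine ⟨r, z, hzN, hli', fun y hy => ?_⟩
  -- `c y` is in the span over `K`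
  have h2 : c y ∈ Submodule.span K (Set.range fun i => c (z i)) := by
    have h3 : Set.range (fun i => c (z i)) = b := by
      ext x
      constructor
      · rintro ⟨i, rfl⟩
        change c (z i) ∈ b
        rw [hzc]
        exact (e i).2
      · intro hx
        refine ⟨e.symm ⟨x, hx⟩, ?_⟩
        change c (z _) = x
        rw [hzc, Equiv.apply_symm_apply]
    rw [h3, hspan]
    exact Submodule.subset_span ⟨y, hy, rfl⟩
  obtain ⟨a, ha⟩ := (Submodule.mem_span_range_iff_exists_fun K).1 h2
  by_contra hcon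
  have h4 := hP (r + 1 + 1) (Fin.cons y z) (by
    intro i
    refine Fin.cases ?_ (fun i => ?_) i
    · exact hNP y hy
    · exact hNP _ (hzN i)) (by
    intro q hq
    rw [Fin.sum_univ_succ, map_add, map_sum] at hq
    simp only [Fin.cons_zero, Fin.cons_succ, hc] at hq
    have hq0 : q 0 = 0 := by
      by_contra hq0
      apply hcon
      refine ⟨fun i => -(q i.succ) / q 0, ?_⟩
      have hq0' : ((q 0 : ℚ) : K) ≠ 0 := by exact_mod_cast hq0
      have h5 : c y = -((q 0 : K)⁻¹ • ∑ i : Fin (r + 1), ((q i.succ : ℚ) : K) • c (z i)) := by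
        rw [eq_neg_iff_add_eq_zero]
        have h6 := congrArg (fun x => (q 0 : K)⁻¹ • x) hq
        beta_reduce at h6
        rw [smul_add, smul_smul, inv_mul_cancel₀ hq0', one_smul, smul_zero] at h6
        exact h6
      rw [h5, Finset.smul_sum, ← Finset.sum_neg_distrib]
      apply Finset.sum_congr rfl
      intro i _
      rw [smul_smul, ← neg_smul]
      congr 1
      push_cast
      field_simp
    rw [hq0, Rat.cast_zero, zero_smul, zero_add] at hq
    have h7 := Fintype.linearIndependent_iff.1 hli' (fun i => ((q i.succ : ℚ) : K)) hq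
    intro i
    refine Fin.cases hq0 (fun i => ?_) i
    exact_mod_cast h7 i)
  have h5 := Fintype.linearIndependent_iff.1 h4 (Fin.cons (-1) a) (by
    rw [Fin.sum_univ_succ]
    simp only [Fin.cons_zero, Fin.cons_succ]
    rw [ha, neg_one_smul, neg_add_cancel]) 0
  rw [Fin.cons_zero] at h5
  exact one_ne_zero (neg_eq_zero.1 h5)

end Basis

section Conj

variable {Ω : Type*} [Field Ω] [CharZero Ω]

/-- The complex conjugates, given by the polynomial `Q`, of a product of numbers `a + c`. -/
theorem conj_prod {P Q R : ℚ[X]} (hP : P ≠ 0)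
    (hQ : ∀ z : ℂ, aeval z P = 0 → aeval z Q = starRingEnd ℂ z) {n : ℕ} (lam : Fin n → Ω)
    (hlam : ∀ i, aeval (lam i) P = 0) (c : ℕ) (h : aeval (∏ i, (lam i + (c : Ω))) R = 0) :
    aeval (∏ i, (aeval (lam i) Q + (c : Ω))) R = 0 := by
  set L := algebraicClosure ℚ Ω with hL
  have hmem : ∀ i, lam i ∈ L := fun i => by
    rw [hL, mem_algebraicClosure_iff]
    exact ⟨P, hP, hlam i⟩
  have halg : Algebra.IsAlgebraic ℚ L := algebraicClosure.isAlgebraic ℚ Ω
  set ι : L →ₐ[ℚ] ℂ := IsAlgClosed.lift with hι
  have hLinj : Function.Injective L.val := fun x y hxy => Subtype.ext hxy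
  have hιinj : Function.Injective ι := ι.toRingHom.injective
  set μ : Fin n → L := fun i => ⟨lam i, hmem i⟩ with hμ
  have hμP : ∀ i, aeval (μ i) P = 0 := by
    intro i
    apply hLinj
    rw [← Polynomial.aeval_algHom_apply, map_zero]
    exact hlam i
  have h1 : ∀ S : ℚ[X], ∀ x : L, ι (aeval x S) = aeval (ι x) S := fun S x =>
    (Polynomial.aeval_algHom_apply ι x S).symm
  have h2 : ∀ i, ι (aeval (μ i) Q) = starRingEnd ℂ (ι (μ i)) := by
    intro i
    rw [h1]
    apply hQ
    rw [← h1, hμP, map_zero]
  have h3 : aeval (∏ i, (μ i + (c : L))) R = 0 := by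
    apply hLinj
    rw [← Polynomial.aeval_algHom_apply, map_zero, map_prod]
    have h4 : ∀ i, L.val (μ i + (c : L)) = lam i + (c : Ω) := by
      intro i
      rw [map_add, map_natCast]
      rfl
    rw [Finset.prod_congr rfl fun i _ => h4 i]
    exact h
  have h5 : aeval (∏ i, (aeval (μ i) Q + (c : L))) R = 0 := by
    apply hιinj
    rw [h1, map_zero, map_prod]
    have h6 : ∀ i, ι (aeval (μ i) Q + (c : L)) = starRingEnd ℂ (ι (μ i + (c : L))) := by
      intro i
      rw [map_add, h2, map_add, map_add, map_natCast, Complex.conj_natCast]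
    rw [Finset.prod_congr rfl fun i _ => h6 i, ← map_prod, ← map_prod]
    have h7 : aeval (ι (∏ i, (μ i + (c : L)))) R = 0 := by rw [← h1, h3, map_zero]
    have h8 : starRingEnd ℂ (aeval (ι (∏ i, (μ i + (c : L)))) R) =
        aeval (starRingEnd ℂ (ι (∏ i, (μ i + (c : L))))) R := by
      have := Polynomial.hom_eval₂ R (algebraMap ℚ ℂ) (starRingEnd ℂ) (ι (∏ i, (μ i + (c : L))))
      rw [aeval_def, this, aeval_def]
      congr 1
      exact Subsingleton.elim _ _
    rw [← h8, h7, map_zero]
  have h9 := congrArg L.val h5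
  rw [← Polynomial.aeval_algHom_apply, map_zero, map_prod] at h9
  have h10 : ∀ i, L.val (aeval (μ i) Q + (c : L)) = aeval (lam i) Q + (c : Ω) := by
    intro i
    rw [map_add, map_natCast, ← Polynomial.aeval_algHom_apply]
    rfl
  rw [Finset.prod_congr rfl fun i _ => h10 i] at h9
  exact h9

/-- A root of the characteristic polynomial of a rational matrix gives a left eigenvector. -/
theorem exists_eigenvector {r : ℕ} (a : Matrix (Fin r) (Fin r) ℚ) {α : Ω}
    (h : aeval α a.charpoly = 0) : ∃ u : Fin r → Ω, u ≠ 0 ∧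
      ∀ j, ∑ i, u i * (a i j : Ω) = α * u j := by
  classical
  set b : Matrix (Fin r) (Fin r) Ω := a.map (algebraMap ℚ Ω) with hb
  have h1 : b.charpoly.IsRoot α := by
    rw [hb, Matrix.charpoly_map, IsRoot.def, eval_map_algebraMap]
    exact h
  have h2 : (Matrix.scalar (Fin r) α - b).det = 0 := by
    rw [← Matrix.eval_charpoly]
    exact h1
  obtain ⟨u, hu, hu'⟩ := Matrix.exists_vecMul_eq_zero_iff.2 h2
  refine ⟨u, hu, fun j => ?_⟩
  have h3 := congrFun hu' j
  rw [Matrix.vecMul_sub, Pi.sub_apply, Pi.zero_apply, sub_eq_zero] at h3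
  have h4 : Matrix.vecMul u (Matrix.scalar (Fin r) α) j = α * u j := by
    rw [Matrix.scalar_apply, Matrix.vecMul_diagonal, mul_comm]
  rw [h4] at h3
  rw [h3, Matrix.vecMul, dotProduct]
  rfl

end Conj

end Run7.h152.LI
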