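import Pool.Agent.Run7.h152.LI.Geo
import Pool.Agent.Run7.h152.LI.Pick

/-!
# The injectivity conjecture implies the conjecture D for abelian varieties
-/

set_option autoImplicit false

open CategoryTheory AlgebraicGeometry Polynomial

universe u v u' v'

namespace Run7.h152.LI

open Pool.Agent.H914 Pool.Agent.H914.VarClass Pool.Agent.H914.VarClass.Obj
  Pool.Agent.H914.WeilCohomology Pool.Agent.R908

variable {k : Type u} [Field k] {𝒱 : VarClass k} {ops : CycleOps 𝒱}
  {W : WeilCohomology.{u, v} ops} {A Y : 𝒱.Obj} {m : A.prod A ⟶ A} {e : A ⟶ A} {D : A.Cycles}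
  {𝒢 : Set (Symmetry W)} {P Q : ℚ[X]}

/-- The multilinear form given by the components of the cycles `z i` with coefficients `u i`. -/
noncomputable def bigForm (W : WeilCohomology.{u, v} ops) (e : A ⟶ A) {Ω : Type v} [Field Ω]
    [Algebra W.K Ω] {r : ℕ} (z : Fin r → (A.prod Y).Cycles) (c : Fin r → Ω) (y : W.H Y) {n : ℕ}
    (f : Fin n → W.K[X]) : MultilinearMap W.K (fun i => ker1 W e (f i)) Ω :=
  ∑ s, c s • (((Algebra.linearMap W.K Ω) ∘ₗ compForm W (z s) y).compMultilinearMap
    (MultilinearMap.mkPiAlgebraFin W.K n (W.H A))).compLinearMap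
      fun i => (ker1 W e (f i)).subtype

lemma bigForm_apply {Ω : Type v} [Field Ω] [Algebra W.K Ω] {r : ℕ}
    (z : Fin r → (A.prod Y).Cycles) (c : Fin r → Ω) (y : W.H Y) {n : ℕ} (f : Fin n → W.K[X])
    (t : ∀ i, ker1 W e (f i)) : bigForm W e z c y f t =
      ∑ s, c s * algebraMap W.K Ω (component W (z s) (fun i => (t i : W.H A)) y) := by
  rw [bigForm, MultilinearMap.sum_apply]
  apply Finset.sum_congr rfl
  intro s _
  rw [MultilinearMap.smul_apply, smul_eq_mul, MultilinearMap.compLinearMap_apply,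
    LinearMap.compMultilinearMap_apply, MultilinearMap.mkPiAlgebraFin_apply, LinearMap.comp_apply,
    Algebra.linearMap_apply]
  congr 2

/-- The labels and the eigenvalues. -/
theorem star (hA : IsAbelianType 𝒢 A m D) (hR : IsRosati W D e P Q)
    (hI : IrreducibleKernels 𝒢 A e P) {Ω : Type v} [Field Ω] [Algebra W.K Ω] [IsAlgClosed Ω]
    [CharZero Ω] (F : Factors W.K Ω P Q) {w : Fin F.N → ℝ} {j : ℕ}
    (hw : ∀ (z : (A.prod Y).Cycles), IsNumTrivial ops (A.prod Y) j z →
      ∀ (n : ℕ) (l : Fin n → Fin F.N) (t : Fin n → W.H A),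
        InBlocks (W.gr A 1) (fun l => evalAt W e (F.g l)) l t → ∀ y : W.H Y,
          component W z t y ≠ 0 → ∑ i, w (l i) < 0)
    {r : ℕ} (z : Fin r → (A.prod Y).Cycles) (hz : ∀ i, IsNumTrivial ops (A.prod Y) j (z i))
    (hli : LinearIndependent W.K fun i => W.cl _ (z i)) (c : ℕ) (a : Matrix (Fin r) (Fin r) ℚ)
    (ha : ∀ i, W.cl _ (ops.push (timesId Y (shift m e c)) (z i)) =
      ∑ i', (a i i' : W.K) • W.cl _ (z i')) {α : Ω} (hα : aeval α a.charpoly = 0) :
    ∃ (n : ℕ) (l : Fin n → Fin F.N) (lam : Fin n → Ω), n ≤ 2 * A.dim ∧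
      (∀ i, aeval (lam i) (F.f (l i)) = 0) ∧ α = ∏ i, (lam i + (c : Ω)) ∧ ∑ i, w (l i) < 0 := by
  classical
  have hP : Squarefree P := hR.1.1
  obtain ⟨u, hu, hua⟩ := exists_eigenvector a hα
  obtain ⟨i₀, hi₀⟩ : ∃ i, u i ≠ 0 := by
    by_contra hcon
    push Not at hcon
    exact hu (funext hcon)
  -- some component is not zero
  obtain ⟨φ, hφ⟩ := Module.Projective.exists_dual_eq_one W.K hi₀
  set vv : W.H (A.prod Y) := ∑ i, φ (u i) • W.cl _ (z i) with hvv
  have hv0 : vv ≠ 0 := by
    intro h0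
    have h1 := Fintype.linearIndependent_iff.1 hli _ h0 i₀
    rw [hφ] at h1
    exact one_ne_zero h1
  have hvs : vv ∈ spanCycles W (A.prod Y) (j : ℤ) :=
    Submodule.sum_mem _ fun i _ => Submodule.smul_mem _ _
      (Submodule.subset_span ⟨j, rfl, z i, (hz i).2.1, rfl⟩)
  have hblocks := hR.blocks hI F
  obtain ⟨n, l, t, ht, y, hne⟩ : ∃ (n : ℕ) (l : Fin n → Fin F.N) (t : Fin n → W.H A),
      InBlocks (W.gr A 1) (fun l => evalAt W e (F.g l)) l t ∧ ∃ y : W.H Y,
        W.tr (A.prod Y) (W.map (snd A Y) y * W.map (fst A Y) (List.ofFn t).prod * vv) ≠ 0 := by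
    by_contra hcon
    push Not at hcon
    exact hv0 (eq_zero_of_components hA.abelianLike hblocks hvs hcon)
  have hsum : W.tr (A.prod Y) (W.map (snd A Y) y * W.map (fst A Y) (List.ofFn t).prod * vv) =
      φ (∑ i, u i * algebraMap W.K Ω (component W (z i) t y)) := by
    rw [hvv, Finset.mul_sum, map_sum, map_sum]
    apply Finset.sum_congr rfl
    intro i _
    rw [mul_smul_comm, map_smul, mul_comm (u i), ← Algebra.smul_def, map_smul, smul_eq_mul,
      smul_eq_mul, mul_comm]
    rfl
  have hF0 : ∑ i, u i * algebraMap W.K Ω (component W (z i) t y) ≠ 0 := by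
    intro h0
    rw [hsum, h0, map_zero] at hne
    exact hne rfl
  obtain ⟨i₁, -, hi₁⟩ := Finset.exists_ne_zero_of_sum_ne_zero hF0
  have hcomp : component W (z i₁) t y ≠ 0 := by
    intro h0
    rw [h0, map_zero, mul_zero] at hi₁
    exact hi₁ rfl
  have hwl : ∑ i, w (l i) < 0 := hw (z i₁) (hz i₁) n l t ht y hcomp
  have hn : n ≤ 2 * A.dim := by
    by_contra hcon
    have h1 := ofFn_prod_mem (W := W) (X := A) (t := t) fun i => (ht i).1
    rw [W.gr_eq_bot A n (by omega), Submodule.mem_bot] at h1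
    apply hcomp
    rw [component, valueOn, h1, map_zero, mul_zero, zero_mul, map_zero]
  -- the multilinear form
  have hker : ∀ i, t i ∈ ker1 W e (F.f (l i)) := by
    intro i
    rw [mem_ker1]
    refine ⟨(ht i).1, ?_⟩
    have h1 : evalAt W e (F.g (l i)) (t i) = t i := (ht i).2
    rw [← h1]
    have h2 := F.aeval_eq hP (hR.2.1 (t i) (ht i).1) (R := F.f (l i) * F.g (l i)) (S := 0) (by
      intro b l'' _ hl''
      rw [map_mul, map_zero]
      by_cases hll : l i = l''
      · rw [hll, hl'', zero_mul]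
      · rw [F.g_zero b (l i) l'' hll hl'', mul_zero])
    rw [map_mul, map_zero] at h2
    exact h2
  set G := bigForm W e z u y (fun i => F.f (l i)) with hG
  have hG0 : G ≠ 0 := by
    intro h0
    have h1 := congrArg (fun H => H fun i => (⟨t i, hker i⟩ : ker1 W e (F.f (l i)))) h0
    beta_reduce at h1
    rw [hG, bigForm_apply] at h1
    exact hF0 h1
  obtain ⟨lam, hlam, hprod⟩ := exists_roots (fun i => eker W e (F.f (l i))) (fun i => F.f (l i))
    (fun i => (F.irr _).ne_zero) (fun i => eker_zero _) G hG0 (c : W.K) α (by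
      intro t
      rw [hG, bigForm_apply, bigForm_apply]
      have h1 : ∀ s, component W (z s) (fun i => ((eker W e (F.f (l i)) (t i) + (c : W.K) • t i :
          ker1 W e (F.f (l i))) : W.H A)) y = ∑ s', (a s s' : W.K) *
            component W (z s') (fun i => (t i : W.H A)) y := by
        intro s
        have h2 : (fun i => ((eker W e (F.f (l i)) (t i) + (c : W.K) • t i :
            ker1 W e (F.f (l i))) : W.H A)) = fun i => W.map (shift m e c) (t i : W.H A) := by
          funext i
          rw [shift_map hA.abelianLike c (mem_ker1.1 (t i).2).1]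
          rfl
        rw [h2, ← component_push (shift m e c) (hz s).2.1, component, valueOn, ha,
          Finset.mul_sum, map_sum]
        apply Finset.sum_congr rfl
        intro s' _
        rw [mul_smul_comm, map_smul, smul_eq_mul]
        rfl
      rw [Finset.sum_congr rfl fun s _ => by rw [h1 s]]
      simp only [map_sum, map_mul, Finset.mul_sum]
      rw [Finset.sum_comm]
      apply Finset.sum_congr rfl
      intro s' _
      have h3 := hua s'
      have h4 : ∀ s, algebraMap W.K Ω (a s s' : W.K) = (a s s' : Ω) := fun s => map_ratCast _ _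
      simp only [h4, ← mul_assoc]
      rw [← Finset.sum_mul, h3])
  refine ⟨n, l, lam, hn, hlam, ?_, hwl⟩
  rw [hprod]
  simp only [map_natCast]

/-- **The injectivity conjecture implies the conjecture D.** -/
theorem homEqNumAt_of_injective {𝒴 : Set 𝒱.Obj} (hA : IsAbelianType 𝒢 A m D)
    (hR : IsRosati W D e P Q) (hI : IrreducibleKernels 𝒢 A e P)
    (hY : ∀ Z, IsProductOf 𝒴 Z → HomEqNum W Z) (hYY : IsProductOf 𝒴 Y) {j : ℕ}
    (hInj : InjectiveAt W (A.prod Y) j) : HomEqNumAt W (A.prod Y) j := by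
  classical
  intro z₀ hz₀
  by_contra hne
  have hP : Squarefree P := hR.1.1
  have hQ := hR.1.2
  set Ω := AlgebraicClosure W.K with hΩ
  have hchar : CharZero Ω := charZero_of_injective_algebraMap (algebraMap W.K Ω).injective
  obtain ⟨F⟩ := exists_factors W.K Ω hP hQ
  obtain ⟨w, hw, hwt⟩ := weights_cycles hA (hR.blocks hI F) hY
  have hmap : ∀ (R : ℚ[X]) (b : Ω), aeval b (R.map (algebraMap ℚ W.K)) = aeval b R := by
    intro R b
    rw [Polynomial.aeval_map_algebraMap]
  -- the roots
  have hP0 : P.map (algebraMap ℚ Ω) ≠ 0 := Polynomial.map_ne_zero hP.ne_zero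
  set Rt : Finset Ω := (P.map (algebraMap ℚ Ω)).roots.toFinset with hRt
  have hRtm : ∀ b, aeval b P = 0 → b ∈ Rt := by
    intro b hb
    rw [hRt, Multiset.mem_toFinset, mem_roots hP0, IsRoot.def, eval_map_algebraMap]
    exact hb
  obtain ⟨c, hc⟩ := exists_shift Rt (2 * A.dim)
  obtain ⟨r, z, hz, hli, hrat⟩ := exists_basis (K := W.K) (c := W.cl (A.prod Y))
    (fun q z => W.cl_smul q z) hInj (fun z hz => hz.2.1)
    (N := fun z => IsNumTrivial ops (A.prod Y) j z) hz₀ hne
  choose a ha using fun i => hrat _ (numTriv_push W (timesId Y (shift m e c)) (hz i))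
  have hst := fun {α : Ω} (hα : aeval α (Matrix.of a).charpoly = 0) =>
    star hA hR hI F (fun z hz n l t ht y hcne => ((hwt Y hYY j z hz).1 n l t ht y hcne).1) z hz hli
      c (Matrix.of a) ha hα
  obtain ⟨α, hα⟩ : ∃ α : Ω, aeval α (Matrix.of a).charpoly = 0 := by
    apply IsAlgClosed.exists_aeval_eq_zero
    rw [Matrix.charpoly_degree_eq_dim, Fintype.card_fin]
    exact_mod_cast Nat.succ_ne_zero r
  obtain ⟨n, l, lam, hn, hlam, hprod, hneg⟩ := hst hα
  have hroot : ∀ {l : Fin F.N} {b : Ω}, aeval b (F.f l) = 0 → aeval b P = 0 := by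
    intro l b hb
    obtain ⟨R, hR'⟩ := F.dvd l
    rw [← hmap P b, hR', map_mul, hb, zero_mul]
  have hα' := conj_prod (R := (Matrix.of a).charpoly) hP.ne_zero hQ lam
    (fun i => hroot (hlam i)) c (by rw [← hprod]; exact hα)
  obtain ⟨n', l', lam', hn', hlam', hprod', hneg'⟩ := hst hα'
  -- the multisets
  have hms := hc (Finset.univ.val.map fun i => aeval (lam i) Q) (Finset.univ.val.map lam') (by
    intro b hb
    obtain ⟨i, -, rfl⟩ := Multiset.mem_map.1 hb
    exact hRtm _ (root_conj hP hQ (hroot (hlam i)))) (by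
    intro b hb
    obtain ⟨i, -, rfl⟩ := Multiset.mem_map.1 hb
    exact hRtm _ (hroot (hlam' i))) (by
    rw [Multiset.card_map, Finset.card_val, Finset.card_univ, Fintype.card_fin]
    exact hn) (by
    rw [Multiset.card_map, Finset.card_val, Finset.card_univ, Fintype.card_fin]
    exact hn') (by
    rw [Multiset.map_map, Multiset.map_map]
    exact hprod')
  -- the labels
  have hlab : ∃ lab : Ω → Fin F.N, ∀ (b : Ω) (l : Fin F.N), aeval b (F.f l) = 0 → lab b = l := by
    have hN : Nonempty (Fin F.N) := by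
      obtain ⟨l, -⟩ := F.exists_label (lam' ⟨0, by
        rcases Nat.eq_zero_or_pos n' with h0 | h0
        · subst h0
          rw [Finset.univ_eq_empty, Finset.sum_empty] at hneg'
          exact absurd hneg' (lt_irrefl 0)
        · exact h0⟩) (by rw [hmap]; exact hroot (hlam' _))
      exact ⟨l⟩
    refine ⟨fun b => if h : ∃ l, aeval b (F.f l) = 0 then h.choose else hN.some, fun b l hb => ?_⟩
    have h : ∃ l, aeval b (F.f l) = 0 := ⟨l, hb⟩
    beta_reduce
    rw [dif_pos h]
    exact F.unique b _ _ h.choose_spec hb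
  obtain ⟨lab, hlab⟩ := hlab
  have h1 : ∑ i, w (l' i) = ((Finset.univ.val.map lam').map fun b => w (lab b)).sum := by
    rw [Multiset.map_map]
    change _ = (Finset.univ.val.map fun i => w (lab (lam' i))).sum
    rw [Finset.sum_eq_multiset_sum]
    congr 1
    apply Multiset.map_congr rfl
    intro i _
    rw [hlab _ _ (hlam' i)]
  have h2 : ∑ i, w (F.bar (l i)) =
      ((Finset.univ.val.map fun i => aeval (lam i) Q).map fun b => w (lab b)).sum := by
    rw [Multiset.map_map]
    change _ = (Finset.univ.val.map fun i => w (lab (aeval (lam i) Q))).sum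
    rw [Finset.sum_eq_multiset_sum]
    congr 1
    apply Multiset.map_congr rfl
    intro i _
    have h3 := F.bar_root _ _ (hlam i)
    rw [hmap] at h3
    rw [hlab _ _ h3]
  rw [hms, ← h1] at h2
  have h3 : ∑ i, w (F.bar (l i)) = -∑ i, w (l i) := by
    rw [← Finset.sum_neg_distrib]
    exact Finset.sum_congr rfl fun i _ => hw (l i)
  linarith

end Run7.h152.LI
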