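import Mathlib

/-!
# Polynomials with a conjugation polynomial: factors over another field
-/

set_option autoImplicit false

open Polynomial

namespace Run7.h152.LI

/-- A squarefree polynomial divides each polynomial which vanishes at its roots. -/
lemma dvd_of_roots {F E : Type*} [Field F] [CharZero F] [Field E] [Algebra F E] [IsAlgClosed E]
    {P R : F[X]} (hP : Squarefree P) (h : ∀ a : E, aeval a P = 0 → aeval a R = 0) : P ∣ R := by
  classical
  by_cases hR : R = 0
  · rw [hR]; exact dvd_zero P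
  have hP0 : P ≠ 0 := hP.ne_zero
  have hsep : P.Separable := PerfectField.separable_iff_squarefree.2 hP
  rw [← Polynomial.map_dvd_map' (algebraMap F E)]
  have hPm : P.map (algebraMap F E) ≠ 0 := Polynomial.map_ne_zero hP0
  have hRm : R.map (algebraMap F E) ≠ 0 := Polynomial.map_ne_zero hR
  have hsplit : (P.map (algebraMap F E)).Splits := IsAlgClosed.splits _
  have h1 := hsplit.eq_prod_roots
  rw [h1]
  refine (Polynomial.C_mul_dvd (Polynomial.leadingCoeff_ne_zero.2 hPm)).2 ?_
  rw [Multiset.prod_X_sub_C_dvd_iff_le_roots hRm]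
  rw [Multiset.le_iff_subset (nodup_roots hsep.map)]
  intro a ha
  rw [mem_roots hPm, IsRoot.def, eval_map_algebraMap] at ha
  rw [mem_roots hRm, IsRoot.def, eval_map_algebraMap]
  exact h a ha

section Conj

variable {P Q : ℚ[X]}

lemma conj_root {z : ℂ} (hz : aeval z P = 0) : aeval (starRingEnd ℂ z) P = 0 := by
  have h1 : starRingEnd ℂ (aeval z P) = aeval (starRingEnd ℂ z) P := by
    have := Polynomial.hom_eval₂ P (algebraMap ℚ ℂ) (starRingEnd ℂ) z
    rw [aeval_def, this, aeval_def]
    congr 1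
    exact Subsingleton.elim _ _
  rw [← h1, hz, map_zero]

lemma dvd_comp (hP : Squarefree P) (hQ : ∀ z : ℂ, aeval z P = 0 → aeval z Q = starRingEnd ℂ z) :
    P ∣ P.comp Q := by
  refine dvd_of_roots (E := ℂ) hP fun z hz => ?_
  rw [aeval_comp, hQ z hz]
  exact conj_root hz

lemma dvd_comp_comp (hP : Squarefree P)
    (hQ : ∀ z : ℂ, aeval z P = 0 → aeval z Q = starRingEnd ℂ z) : P ∣ Q.comp Q - X := by
  refine dvd_of_roots (E := ℂ) hP fun z hz => ?_
  rw [map_sub, aeval_comp, hQ z hz, hQ _ (conj_root hz), aeval_X, starRingEnd_self_apply, sub_self]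

variable {E : Type*} [Field E] [Algebra ℚ E]

lemma root_conj (hP : Squarefree P) (hQ : ∀ z : ℂ, aeval z P = 0 → aeval z Q = starRingEnd ℂ z)
    {a : E} (ha : aeval a P = 0) : aeval (aeval a Q) P = 0 := by
  obtain ⟨R, hR⟩ := dvd_comp hP hQ
  rw [← aeval_comp, hR, map_mul, ha, zero_mul]

lemma conj_conj (hP : Squarefree P) (hQ : ∀ z : ℂ, aeval z P = 0 → aeval z Q = starRingEnd ℂ z)
    {a : E} (ha : aeval a P = 0) : aeval (aeval a Q) Q = a := by
  obtain ⟨R, hR⟩ := dvd_comp_comp hP hQ
  have h1 : aeval a (Q.comp Q - X) = 0 := by rw [hR, map_mul, ha, zero_mul]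
  rw [map_sub, aeval_comp, aeval_X, sub_eq_zero] at h1
  exact h1

end Conj

/-- The irreducible factors of `P` over `K` and the idempotents of `K[X] / (P)`. -/
structure Factors (K : Type*) [Field K] [CharZero K] (Ω : Type*) [Field Ω] [Algebra K Ω]
    (P Q : ℚ[X]) where
  /-- the number of factors -/
  N : ℕ
  /-- the factors -/
  f : Fin N → K[X]
  /-- the idempotents -/
  g : Fin N → K[X]
  /-- the conjugation of the factors -/
  bar : Fin N → Fin N
  irr : ∀ l, Irreducible (f l)
  dvd : ∀ l, f l ∣ P.map (algebraMap ℚ K)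
  exists_label : ∀ a : Ω, aeval a (P.map (algebraMap ℚ K)) = 0 → ∃ l, aeval a (f l) = 0
  unique : ∀ (a : Ω) (l l' : Fin N), aeval a (f l) = 0 → aeval a (f l') = 0 → l = l'
  g_one : ∀ (a : Ω) (l : Fin N), aeval a (f l) = 0 → aeval a (g l) = 1
  g_zero : ∀ (a : Ω) (l l' : Fin N), l ≠ l' → aeval a (f l') = 0 → aeval a (g l) = 0
  bar_root : ∀ (a : Ω) (l : Fin N), aeval a (f l) = 0 →
    aeval (aeval a (Q.map (algebraMap ℚ K))) (f (bar l)) = 0
  involutive : ∀ l, bar (bar l) = l

theorem exists_factors (K : Type*) [Field K] [CharZero K] (Ω : Type*) [Field Ω] [Algebra K Ω]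
    [IsAlgClosed Ω] {P Q : ℚ[X]} (hP : Squarefree P)
    (hQ : ∀ z : ℂ, aeval z P = 0 → aeval z Q = starRingEnd ℂ z) :
    Nonempty (Factors K Ω P Q) := by
  classical
  have : CharZero Ω := charZero_of_injective_algebraMap (algebraMap K Ω).injective
  set PK := P.map (algebraMap ℚ K) with hPK
  have hsep : P.Separable := PerfectField.separable_iff_squarefree.2 hP
  have hPK0 : PK ≠ 0 := Polynomial.map_ne_zero hP.ne_zero
  have hPKsq : Squarefree PK := (hsep.map (f := algebraMap ℚ K)).squarefree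
  set S : Finset K[X] := (UniqueFactorizationMonoid.normalizedFactors PK).toFinset with hS
  have hSirr : ∀ f ∈ S, Irreducible f := fun f hf =>
    UniqueFactorizationMonoid.irreducible_of_normalized_factor f (Multiset.mem_toFinset.1 hf)
  have hSmon : ∀ f ∈ S, f.Monic := fun f hf => by
    have h1 := UniqueFactorizationMonoid.normalize_normalized_factor f (Multiset.mem_toFinset.1 hf)
    rw [← h1]
    exact Polynomial.monic_normalize (hSirr f hf).ne_zero
  have hSdvd : ∀ f ∈ S, f ∣ PK := fun f hf =>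
    UniqueFactorizationMonoid.dvd_of_mem_normalizedFactors (Multiset.mem_toFinset.1 hf)
  have hmap : ∀ (R : ℚ[X]) (a : Ω), aeval a (R.map (algebraMap ℚ K)) = aeval a R := by
    intro R a
    rw [Polynomial.aeval_map_algebraMap]
  -- the label of a root
  have hlab : ∀ a : Ω, aeval a PK = 0 → minpoly K a ∈ S := by
    intro a ha
    have hint : IsIntegral K a := by
      refine ⟨PK * C PK.leadingCoeff⁻¹, Polynomial.monic_mul_leadingCoeff_inv hPK0, ?_⟩
      rw [← aeval_def, map_mul, ha, zero_mul]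
    have h1 : Irreducible (minpoly K a) := minpoly.irreducible hint
    obtain ⟨q, hq, hq'⟩ := UniqueFactorizationMonoid.exists_mem_normalizedFactors_of_dvd hPK0 h1
      (minpoly.dvd K a ha)
    rw [hS, Multiset.mem_toFinset]
    have h2 : minpoly K a = q := by
      refine Polynomial.eq_of_monic_of_associated (minpoly.monic hint) ?_ hq'
      exact hSmon q (Multiset.mem_toFinset.2 hq)
    rw [h2]
    exact hq
  have huniq : ∀ (a : Ω) (f : K[X]), f ∈ S → aeval a f = 0 → f = minpoly K a := by
    intro a f hf ha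
    exact minpoly.eq_of_irreducible_of_monic (hSirr f hf) ha (hSmon f hf)
  set e : Fin S.card ≃ S := S.equivFin.symm with he
  set f : Fin S.card → K[X] := fun l => (e l : K[X]) with hf
  have hfS : ∀ l, f l ∈ S := fun l => (e l).2
  have hfinj : Function.Injective f := fun l l' h => e.injective (Subtype.ext h)
  have hcop : ∀ l, IsCoprime (f l) (∏ l' ∈ Finset.univ.erase l, f l') := by
    intro l
    refine IsCoprime.prod_right fun l' hl' => ?_
    have hne : f l ≠ f l' := fun h => (Finset.mem_erase.1 hl').1 (hfinj h).symm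
    refine (Irreducible.coprime_iff_not_dvd (hSirr _ (hfS l))).2 fun hd => hne ?_
    exact Polynomial.eq_of_monic_of_associated (hSmon _ (hfS l)) (hSmon _ (hfS l'))
      ((hSirr _ (hfS l)).associated_of_dvd (hSirr _ (hfS l')) hd)
  choose u v huv using hcop
  have hroot : ∀ l, ∃ a : Ω, aeval a (f l) = 0 := fun l =>
    IsAlgClosed.exists_aeval_eq_zero Ω (f l)
      (Polynomial.degree_pos_of_irreducible (hSirr _ (hfS l))).ne'
  choose r hr using hroot
  have hrP : ∀ l, aeval (r l) P = 0 := by
    intro l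
    obtain ⟨R, hR⟩ := hSdvd _ (hfS l)
    have h1 : aeval (r l) PK = 0 := by
      rw [hR, map_mul]
      change aeval (r l) (f l) * _ = 0
      rw [hr, zero_mul]
    rwa [hPK, hmap] at h1
  have hbar : ∀ l, ∃ l', aeval (aeval (r l) Q) (f l') = 0 := by
    intro l
    have h1 := root_conj hP hQ (hrP l)
    have h2 := hlab (aeval (r l) Q) (by rw [hPK, hmap]; exact h1)
    refine ⟨e.symm ⟨_, h2⟩, ?_⟩
    simp only [hf, Equiv.apply_symm_apply]
    exact minpoly.aeval K _
  choose bar hbar using hbar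
  have hfu : ∀ (a : Ω) (l l' : Fin S.card), aeval a (f l) = 0 → aeval a (f l') = 0 → l = l' :=
    fun a l l' h h' => hfinj ((huniq a _ (hfS l) h).trans (huniq a _ (hfS l') h').symm)
  have hbr : ∀ (a : Ω) (l : Fin S.card), aeval a (f l) = 0 →
      aeval (aeval a (Q.map (algebraMap ℚ K))) (f (bar l)) = 0 := by
    intro a l ha
    have h1 : f l ∣ (f (bar l)).comp (Q.map (algebraMap ℚ K)) := by
      rw [huniq _ _ (hfS l) (hr l)]
      refine minpoly.dvd K _ ?_
      rw [aeval_comp, hmap]
      exact hbar l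
    obtain ⟨R, hR⟩ := h1
    rw [← aeval_comp, hR, map_mul, ha, zero_mul]
  refine ⟨⟨S.card, f, fun l => v l * ∏ l' ∈ Finset.univ.erase l, f l', bar,
    fun l => hSirr _ (hfS l), fun l => hSdvd _ (hfS l), ?_, hfu, ?_, ?_, hbr, ?_⟩⟩
  · intro a ha
    refine ⟨e.symm ⟨_, hlab a ha⟩, ?_⟩
    simp only [hf, Equiv.apply_symm_apply]
    exact minpoly.aeval K _
  · intro a l ha
    have h1 := congrArg (aeval a) (huv l)
    rw [map_add, map_mul, ha, mul_zero, zero_add, map_one] at h1
    exact h1
  · intro a l l' hl ha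
    rw [map_mul, map_prod, Finset.prod_eq_zero (Finset.mem_erase.2 ⟨hl.symm, Finset.mem_univ l'⟩) ha,
      mul_zero]
  · intro l
    have h1 := hbr _ _ (hbr _ _ (hr l))
    rw [hmap, hmap, conj_conj hP hQ (hrP l)] at h1
    exact hfu _ _ _ h1 (hr l)

end Run7.h152.LI
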