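import Pool.Agent.Run7.h152.LI.Defs
import Pool.Agent.Run7.h152.LI.Poly
import Pool.Agent.R908.KqC
import Pool.Agent.R908.BalDefs

/-!
# The block system attached to an endomorphism
-/

set_option autoImplicit false

open CategoryTheory AlgebraicGeometry Polynomial

universe u v w

namespace Run7.h152.LI

open Pool.Agent.H914 Pool.Agent.H914.VarClass Pool.Agent.H914.VarClass.Obj
  Pool.Agent.H914.WeilCohomology Pool.Agent.R908

section Alg

variable {K : Type*} [Field K] {V : Type*} [AddCommGroup V] [Module K V]

lemma aeval_zero_of_dvd {E : Module.End K V} {R S : K[X]} (h : R ∣ S) {x : V}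
    (hx : aeval E R x = 0) : aeval E S x = 0 := by
  obtain ⟨T, rfl⟩ := h
  rw [mul_comm, map_mul, Module.End.mul_apply, hx, map_zero]

variable [CharZero K] {Ω : Type*} [Field Ω] [Algebra K Ω] [IsAlgClosed Ω] {P Q : ℚ[X]}

/-- Identities between polynomials in an operator can be checked on the roots. -/
lemma Factors.aeval_eq (F : Factors K Ω P Q) (hP : Squarefree P) {E : Module.End K V} {x : V}
    (hx : aeval E (P.map (algebraMap ℚ K)) x = 0) {R S : K[X]}
    (h : ∀ (a : Ω) (l : Fin F.N), aeval a (P.map (algebraMap ℚ K)) = 0 → aeval a (F.f l) = 0 →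
      aeval a R = aeval a S) : aeval E R x = aeval E S x := by
  have hsep : P.Separable := PerfectField.separable_iff_squarefree.2 hP
  have hsq : Squarefree (P.map (algebraMap ℚ K)) := (hsep.map (f := algebraMap ℚ K)).squarefree
  have h1 : P.map (algebraMap ℚ K) ∣ R - S := by
    refine dvd_of_roots (E := Ω) hsq fun a ha => ?_
    obtain ⟨l, hl⟩ := F.exists_label a ha
    rw [map_sub, h a l ha hl, sub_self]
  have h2 := aeval_zero_of_dvd h1 hx
  rw [map_sub, LinearMap.sub_apply, sub_eq_zero] at h2
  exact h2

end Alg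

variable {k : Type u} [Field k] {𝒱 : VarClass k} {ops : CycleOps 𝒱}
  {W : WeilCohomology.{u, v} ops} {𝒢 : Set (Symmetry W)} {A : 𝒱.Obj} {D : A.Cycles} {e : A ⟶ A}
  {P Q : ℚ[X]} {Ω : Type w} [Field Ω] [Algebra W.K Ω] [IsAlgClosed Ω]

/-- The operator `R(e^*)` on the cohomology of `A`, for a polynomial `R` with coefficients in the
coefficient field. -/
noncomputable def evalAt (W : WeilCohomology.{u, v} ops) {A : 𝒱.Obj} (e : A ⟶ A) (R : W.K[X]) :
    Module.End W.K (W.H A) :=
  aeval (W.map e).toLinearMap R

/-- The polynomial `P` with rational coefficients, as a polynomial over the coefficient field. -/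
noncomputable def overK (W : WeilCohomology.{u, v} ops) (P : ℚ[X]) : W.K[X] :=
  P.map (algebraMap ℚ W.K)

lemma KOp_le_span : KOp W A A 0 ≤ Submodule.span W.K (cycleOperators W A) := by
  apply Submodule.span_le.2
  rintro _ ⟨p, hp, z, hz, rfl⟩
  refine Submodule.subset_span ⟨z, ?_, rfl⟩
  have h1 : p = A.dim := by
    have := hp
    omega
  rwa [h1] at hz

lemma evalAt_mem (R : W.K[X]) : evalAt W e R ∈ Submodule.span W.K (cycleOperators W A) :=
  KOp_le_span (KOp.aevalE (KOp.mapHom e) R)

lemma evalAt_gr (R : W.K[X]) {i : ℕ} {x : W.H A} (hx : x ∈ W.gr A i) :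
    evalAt W e R x ∈ W.gr A i :=
  Mot.hom_deg0 (KOp.aevalE (KOp.mapHom e) R) hx

/-- The adjoint of a polynomial in `e^*`. -/
lemma IsRosati.adjoint (h : IsRosati W D e P Q) (R : W.K[X]) : ∀ x ∈ W.gr A 1, ∀ y ∈ W.gr A 1,
    trForm (W.tr A) (W.cl A D) (A.dim - 1) (evalAt W e R x) y =
      trForm (W.tr A) (W.cl A D) (A.dim - 1) x (evalAt W e (R.comp (overK W Q)) y) := by
  induction R using Polynomial.induction_on' with
  | add R S hR hS =>
    intro x hx y hy
    have h1 : ∀ x : W.H A, evalAt W e (R + S) x = evalAt W e R x + evalAt W e S x := by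
      intro x
      rw [evalAt, map_add, LinearMap.add_apply]
      rfl
    have h2 : evalAt W e ((R + S).comp (overK W Q)) y =
        evalAt W e (R.comp (overK W Q)) y + evalAt W e (S.comp (overK W Q)) y := by
      rw [add_comp, evalAt, map_add, LinearMap.add_apply]
      rfl
    rw [h1, h2, trForm, add_mul, map_add]
    have h3 := hR x hx y hy
    have h4 := hS x hx y hy
    rw [trForm] at h3 h4
    rw [h3, h4, trForm, trForm, trForm, mul_add, mul_add, map_add]
  | monomial n a =>
    induction n with
    | zero =>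
      intro x hx y hy
      rw [monomial_zero_left, C_comp, evalAt, aeval_C, trForm, trForm,
        Module.algebraMap_end_apply, Module.algebraMap_end_apply, smul_mul_assoc, mul_smul_comm,
        mul_smul_comm]
    | succ n ih =>
      intro x hx y hy
      have h1 : evalAt W e (monomial (n + 1) a) x =
          evalAt W e (monomial n a) (W.map e x) := by
        rw [← monomial_mul_X, evalAt, map_mul, aeval_X, Module.End.mul_apply]
        rfl
      have h2 : evalAt W e ((monomial (n + 1) a).comp (overK W Q)) y =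
          evalAt W e (overK W Q) (evalAt W e ((monomial n a).comp (overK W Q)) y) := by
        rw [← monomial_mul_X, mul_comp, X_comp, mul_comm, evalAt, map_mul, Module.End.mul_apply]
        rfl
      have h3 : ∀ x ∈ W.gr A 1, ∀ y ∈ W.gr A 1,
          trForm (W.tr A) (W.cl A D) (A.dim - 1) (W.map e x) y =
            trForm (W.tr A) (W.cl A D) (A.dim - 1) x (evalAt W e (overK W Q) y) := h.2.2
      rw [h1, h2, ih _ (W.map_mem e hx) y hy, h3 x hx _ (evalAt_gr _ hy)]

/-- **The block system attached to an endomorphism.** -/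
theorem IsRosati.blocks (h : IsRosati W D e P Q) (hI : IrreducibleKernels 𝒢 A e P)
    (F : Factors W.K Ω P Q) : IsBlockSystemOne 𝒢 A D F.bar (fun l => evalAt W e (F.g l)) := by
  classical
  obtain ⟨⟨hP, hQ⟩, hzero, hadj⟩ := h
  have hcomp : ∀ (R S : W.K[X]) (x : W.H A), evalAt W e R (evalAt W e S x) =
      evalAt W e (R * S) x := by
    intro R S x
    rw [evalAt, evalAt, evalAt, map_mul, Module.End.mul_apply]
  constructor
  · intro l
    exact evalAt_mem _
  · intro x hx
    have h1 : ∑ l, evalAt W e (F.g l) x = evalAt W e (∑ l, F.g l) x := by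
      rw [evalAt, map_sum, LinearMap.sum_apply]
      rfl
    rw [h1]
    have h2 := F.aeval_eq hP (hzero x hx) (R := ∑ l, F.g l) (S := 1) (by
      intro a l _ hl
      rw [map_sum, Finset.sum_eq_single l, F.g_one a l hl, map_one]
      · intro l' _ hne
        exact F.g_zero a l' l hne hl
      · intro hl'
        exact absurd (Finset.mem_univ l) hl')
    rw [map_one] at h2
    exact h2
  · intro l x hx
    rw [hcomp]
    refine F.aeval_eq hP (hzero x hx) fun a l' _ hl' => ?_
    rw [map_mul]
    by_cases hll : l = l'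
    · subst hll
      rw [F.g_one a l hl', mul_one]
    · rw [F.g_zero a l l' hll hl', mul_zero]
  · intro l l' hne x hx
    rw [hcomp]
    have h2 := F.aeval_eq hP (hzero x hx) (R := F.g l * F.g l') (S := 0) (by
      intro a l'' _ hl''
      rw [map_mul, map_zero]
      by_cases hll : l = l''
      · subst hll
        rw [F.g_zero a l' l hne.symm hl'', mul_zero]
      · rw [F.g_zero a l l'' hll hl'', zero_mul])
    rw [map_zero] at h2
    exact h2
  · exact F.involutive
  · intro l x hx y hy
    have h1 := IsRosati.adjoint (D := D) ⟨⟨hP, hQ⟩, hzero, hadj⟩ (F.g l) x hx y hy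
    rw [h1]
    congr 1
    refine F.aeval_eq hP (hzero y hy) fun a l' ha hl' => ?_
    rw [aeval_comp]
    have h2 := F.bar_root a l' hl'
    by_cases hll : l = F.bar l'
    · subst hll
      rw [F.involutive, F.g_one _ _ hl']
      exact F.g_one _ _ h2
    · have h3 : F.bar l ≠ l' := fun h3 => hll (by rw [← h3, F.involutive])
      rw [F.g_zero a _ l' h3 hl']
      exact F.g_zero _ l _ hll h2
  · intro U hU hC hG l hx y hy hly
    have key : ∀ x ∈ W.gr A 1, evalAt W e (F.g l) x = x → evalAt W e (F.f l) x = 0 := by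
      intro x hx hlx
      rw [← hlx, hcomp]
      have h2 := F.aeval_eq hP (hzero x hx) (R := F.f l * F.g l) (S := 0) (by
        intro a l'' _ hl''
        rw [map_mul, map_zero]
        by_cases hll : l = l''
        · subst hll
          rw [hl'', zero_mul]
        · rw [F.g_zero a l l'' hll hl'', mul_zero])
      rw [map_zero] at h2
      exact h2
    obtain ⟨x, hxU, hx0, hlx⟩ := hx
    refine hI (F.f l) (F.irr l) (F.dvd l) U hU ?_ ?_ ⟨x, hxU, hx0, key x (hU hxU) hlx⟩ y hy
      (key y hy hly)
    · rintro _ ⟨z, hz, rfl⟩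
      exact hC _ ⟨z, hz, rfl⟩
    · rintro _ ⟨S, hS, rfl⟩
      exact hG _ ⟨S, hS, rfl⟩

end Run7.h152.LI
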