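import Mathlib

/-!
# Multilinear forms which are multiplied by a constant by an operator
-/

set_option autoImplicit false

open Polynomial Function

namespace Run7.h152.LI

section Op

variable {Ω : Type*} [Field Ω] {M : Type*} [AddCommGroup M] [Module Ω M]

/-- A polynomial in `E` applied to `y` is an eigenvector of `E`. -/
lemma exists_eig [IsAlgClosed Ω] (E : Module.End Ω M) :
    ∀ (d : ℕ) (p : Polynomial Ω), p.natDegree ≤ d → p ≠ 0 → ∀ y : M, y ≠ 0 → aeval E p y = 0 →
      ∃ (a : Ω) (q : Polynomial Ω), p.IsRoot a ∧ aeval E q y ≠ 0 ∧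
        E (aeval E q y) = a • aeval E q y := by
  intro d
  induction d with
  | zero =>
    intro p hd hp y hy h0
    exfalso
    rw [Polynomial.eq_C_of_natDegree_le_zero hd, aeval_C, Module.algebraMap_end_apply,
      smul_eq_zero] at h0
    rcases h0 with h0 | h0
    · apply hp
      rw [Polynomial.eq_C_of_natDegree_le_zero hd, h0, C_0]
    · exact hy h0
  | succ d ih =>
    intro p hd hp y hy h0
    by_cases hdeg : p.degree = 0
    · exact Exists.elim (ih p (by
        rw [Polynomial.natDegree_eq_zero_iff_degree_le_zero.2 hdeg.le]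
        exact Nat.zero_le _) hp y hy h0) fun a ⟨q, h1, h2, h3⟩ => ⟨a, q, h1, h2, h3⟩
    obtain ⟨a, ha⟩ := IsAlgClosed.exists_root p hdeg
    obtain ⟨p', rfl⟩ := Polynomial.dvd_iff_isRoot.2 ha
    have hp' : p' ≠ 0 := right_ne_zero_of_mul hp
    by_cases h1 : aeval E p' y = 0
    · obtain ⟨b, q, hb, h2, h3⟩ := ih p' (by
        rw [Polynomial.natDegree_mul (X_sub_C_ne_zero a) hp', natDegree_X_sub_C] at hd
        omega) hp' y hy h1
      exact ⟨b, q, by rw [IsRoot.def] at hb ⊢; rw [eval_mul, hb, mul_zero], h2, h3⟩
    · refine ⟨a, p', ha, h1, ?_⟩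
      rw [map_mul, Module.End.mul_apply, map_sub, aeval_X, aeval_C, LinearMap.sub_apply,
        Module.algebraMap_end_apply, sub_eq_zero] at h0
      exact h0

lemma aeval_comm {E G : Module.End Ω M} (h : ∀ x, G (E x) = E (G x)) {a : Ω} {y : M}
    (hy : G y = a • y) (q : Polynomial Ω) : G (aeval E q y) = a • aeval E q y := by
  have h1 : Commute G E := LinearMap.ext h
  have h2 : G * aeval E q = aeval E q * G := by
    induction q using Polynomial.induction_on' with
    | add p q hp hq => rw [map_add, mul_add, add_mul, hp, hq]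
    | monomial n b =>
      rw [aeval_monomial, ← mul_assoc, mul_assoc, mul_assoc, ← (h1.pow_right n).eq, ← mul_assoc,
        ← mul_assoc, Algebra.commutes b G]
  calc G (aeval E q y) = (G * aeval E q) y := rfl
    _ = (aeval E q * G) y := by rw [h2]
    _ = aeval E q (G y) := rfl
    _ = a • aeval E q y := by rw [hy, map_smul]

end Op

section Multi

variable {K : Type*} [Field K] {Ω : Type*} [Field Ω] [Algebra K Ω] {n : ℕ} {V : Fin n → Type*}
  [∀ i, AddCommGroup (V i)] [∀ i, Module K (V i)]

/-- The operator on multilinear forms given by operators on the variables. -/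
noncomputable def act (g : ∀ i, V i →ₗ[K] V i) : Module.End Ω (MultilinearMap K V Ω) where
  toFun F := F.compLinearMap g
  map_add' F G := rfl
  map_smul' a F := rfl

lemma act_apply (g : ∀ i, V i →ₗ[K] V i) (F : MultilinearMap K V Ω) (t : ∀ i, V i) :
    act (Ω := Ω) g F t = F fun i => g i (t i) := rfl

/-- The operator `e` on one variable. -/
noncomputable def one (e : ∀ i, V i →ₗ[K] V i) (i : Fin n) :
    Module.End Ω (MultilinearMap K V Ω) :=
  act (update (fun _ => LinearMap.id) i (e i))

lemma one_apply (e : ∀ i, V i →ₗ[K] V i) (i : Fin n) (F : MultilinearMap K V Ω) (t : ∀ i, V i) :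
    one (Ω := Ω) e i F t = F (update t i (e i (t i))) := by
  rw [one, act_apply]
  congr 1
  funext j
  by_cases h : j = i
  · subst h
    rw [update_self, update_self]
  · rw [update_of_ne h, update_of_ne h, LinearMap.id_apply]

lemma aeval_one (e : ∀ i, V i →ₗ[K] V i) (i : Fin n) (F : MultilinearMap K V Ω) (p : K[X])
    (t : ∀ i, V i) : aeval (one (Ω := Ω) e i) (p.map (algebraMap K Ω)) F t =
      F (update t i (aeval (e i) p (t i))) := by
  induction p using Polynomial.induction_on' generalizing F with
  | add p q hp hq =>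
    rw [Polynomial.map_add, map_add, LinearMap.add_apply, MultilinearMap.add_apply, hp, hq,
      map_add, LinearMap.add_apply, MultilinearMap.map_update_add]
  | monomial d b =>
    induction d generalizing F with
    | zero =>
      rw [monomial_zero_left, map_C, aeval_C, aeval_C, Module.algebraMap_end_apply,
        Module.algebraMap_end_apply, MultilinearMap.map_update_smul, update_eq_self,
        MultilinearMap.smul_apply, algebraMap_smul]
    | succ d ih =>
      rw [← monomial_mul_X, Polynomial.map_mul, map_X, map_mul, aeval_X, Module.End.mul_apply, ih,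
        one_apply, update_self, update_idem, mul_comm, map_mul, aeval_X, Module.End.mul_apply]

lemma comm_one (e : ∀ i, V i →ₗ[K] V i) (i j : Fin n) (F : MultilinearMap K V Ω) :
    one (Ω := Ω) e j (one e i F) = one e i (one e j F) := by
  ext t
  rw [one_apply, one_apply, one_apply, one_apply]
  by_cases h : i = j
  · subst h; rfl
  · rw [update_of_ne h, update_of_ne (Ne.symm h), update_comm h]

lemma comm_act (e g : ∀ i, V i →ₗ[K] V i) (h : ∀ i x, g i (e i x) = e i (g i x)) (i : Fin n)
    (F : MultilinearMap K V Ω) : act (Ω := Ω) g (one e i F) = one e i (act g F) := by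
  ext t
  rw [act_apply, one_apply, one_apply, act_apply]
  congr 1
  funext j
  by_cases hj : j = i
  · subst hj
    rw [update_self, update_self, h]
  · rw [update_of_ne hj, update_of_ne hj]

/-- **Forms multiplied by a constant.** -/
theorem exists_roots [IsAlgClosed Ω] (e : ∀ i, V i →ₗ[K] V i) (f : Fin n → K[X])
    (hf : ∀ i, f i ≠ 0) (h0 : ∀ i, aeval (e i) (f i) = 0) (F : MultilinearMap K V Ω) (hF : F ≠ 0)
    (c : K) (α : Ω) (hα : ∀ t, F (fun i => e i (t i) + c • t i) = α * F t) :
    ∃ lam : Fin n → Ω, (∀ i, aeval (lam i) (f i) = 0) ∧ α = ∏ i, (lam i + algebraMap K Ω c) := by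
  classical
  set g : ∀ i, V i →ₗ[K] V i := fun i => e i + c • LinearMap.id with hg
  have hge : ∀ i x, g i (e i x) = e i (g i x) := by
    intro i x
    rw [hg]
    simp only [LinearMap.add_apply, LinearMap.smul_apply, LinearMap.id_apply, map_add, map_smul]
  have key : ∀ S : Finset (Fin n), ∃ (y : MultilinearMap K V Ω) (lam : Fin n → Ω), y ≠ 0 ∧
      (∀ i ∈ S, aeval (lam i) (f i) = 0 ∧ one e i y = lam i • y) ∧ act g y = α • y := by
    intro S
    induction S using Finset.induction_on with
    | empty =>
      refine ⟨F, fun _ => 0, hF, fun i hi => absurd hi (Finset.notMem_empty i), ?_⟩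
      ext t
      rw [act_apply, MultilinearMap.smul_apply, smul_eq_mul, ← hα]
      rfl
    | insert i S hi ih =>
      obtain ⟨y, lam, hy, h1, h2⟩ := ih
      have h3 : aeval (one (Ω := Ω) e i) ((f i).map (algebraMap K Ω)) y = 0 := by
        ext t
        rw [aeval_one, h0, LinearMap.zero_apply, MultilinearMap.map_update_zero]
        rfl
      obtain ⟨a, q, ha, hq, hq'⟩ := exists_eig (one (Ω := Ω) e i) _
        ((f i).map (algebraMap K Ω)) le_rfl (Polynomial.map_ne_zero (hf i)) y hy h3
      refine ⟨_, update lam i a, hq, fun j hj => ?_, ?_⟩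
      · by_cases hji : j = i
        · subst hji
          rw [update_self]
          refine ⟨?_, hq'⟩
          rw [IsRoot.def, eval_map_algebraMap] at ha
          exact ha
        · rw [update_of_ne hji]
          obtain ⟨h4, h5⟩ := h1 j (Finset.mem_of_mem_insert_of_ne hj hji)
          exact ⟨h4, aeval_comm (fun G => comm_one e i j G) h5 q⟩
      · exact aeval_comm (fun G => comm_act e g hge i G) h2 q
  obtain ⟨y, lam, hy, h1, h2⟩ := key Finset.univ
  refine ⟨lam, fun i => (h1 i (Finset.mem_univ i)).1, ?_⟩
  have h3 : ∀ (S : Finset (Fin n)) (t : ∀ i, V i), y (S.piecewise (fun i => g i (t i)) t) =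
      (∏ i ∈ S, (lam i + algebraMap K Ω c)) * y t := by
    intro S t
    induction S using Finset.induction_on with
    | empty => rw [Finset.piecewise_empty, Finset.prod_empty, one_mul]
    | insert i S hi ih =>
      rw [Finset.piecewise_insert, Finset.prod_insert hi]
      set t' := S.piecewise (fun i => g i (t i)) t with ht'
      have ht'i : t' i = t i := Finset.piecewise_eq_of_notMem _ _ _ hi
      have h4 : g i (t i) = e i (t' i) + c • t' i := by
        rw [ht'i, hg]
        rfl
      rw [h4, MultilinearMap.map_update_add, MultilinearMap.map_update_smul, update_eq_self]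
      have h5 := congrArg (fun G => G t') (h1 i (Finset.mem_univ i)).2
      beta_reduce at h5
      rw [one_apply, MultilinearMap.smul_apply, smul_eq_mul] at h5
      rw [h5, ih, Algebra.smul_def]
      ring
  obtain ⟨t, ht⟩ : ∃ t, y t ≠ 0 := by
    by_contra hcon
    push Not at hcon
    exact hy (MultilinearMap.ext hcon)
  have h4 := h3 Finset.univ t
  rw [Finset.piecewise_univ] at h4
  have h5 := congrArg (fun G => G t) h2
  beta_reduce at h5
  rw [act_apply, MultilinearMap.smul_apply, smul_eq_mul, h4] at h5
  exact (mul_right_cancel₀ ht h5).symm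

end Multi

end Run7.h152.LI
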