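import Pool.Agent.R908.AbAnisoDefs
import Pool.Agent.R908.InjDefs

/-!
# Endomorphisms of abelian varieties with the Rosati involution as complex conjugation, and
# specialization of cycles: definitions
-/

set_option autoImplicit false

open CategoryTheory AlgebraicGeometry Polynomial

universe u v u' v'

namespace Run7.h152.LI

open Pool.Agent.H914 Pool.Agent.H914.VarClass Pool.Agent.R908

section Lin

variable {K : Type*} [Field K] [CharZero K] {V : Type*} [AddCommGroup V] [Module K V]

/-- On the subspace `T`, `P(e) = 0`, and the adjoint of `e` for the form `β` is `Q(e)`, where `P` is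
squarefree and `Q(z)` is the complex conjugate of `z` for each complex root `z` of `P`. -/
def AdjointConjugate (T : Submodule K V) (β : V → V → K) (e : Module.End K V) (P Q : ℚ[X]) :
    Prop :=
  (Squarefree P ∧ ∀ z : ℂ, aeval z P = 0 → aeval z Q = starRingEnd ℂ z) ∧
    (∀ x ∈ T, aeval e (P.map (algebraMap ℚ K)) x = 0) ∧
    ∀ x ∈ T, ∀ y ∈ T, β (e x) y = β x (aeval e (Q.map (algebraMap ℚ K)) y)

/-- For every irreducible factor `f` of `P` over `K` the kernel of `f(e)` on `T` is irreducible under
the operators in `C` and in `G`: every subspace of `T` which is stable under these and contains a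
nonzero element of the kernel contains the whole kernel. -/
def KernelsIrreducible (T : Submodule K V) (C : Set (Module.End K V)) (G : Set (V → V))
    (e : Module.End K V) (P : ℚ[X]) : Prop :=
  ∀ f : K[X], Irreducible f → f ∣ P.map (algebraMap ℚ K) → ∀ U ≤ T,
    (∀ φ ∈ C, ∀ x ∈ U, φ x ∈ U) → (∀ σ ∈ G, ∀ x ∈ U, σ x ∈ U) →
    (∃ x ∈ U, x ≠ 0 ∧ aeval e f x = 0) → ∀ y ∈ T, aeval e f y = 0 → y ∈ U

/-- The form `x, y ↦ tr (x ξ ^ n y)`. -/
def formOf {B : Type*} [Ring B] [Algebra K B] (tr : B →ₗ[K] K) (ξ : B) (n : ℕ) (x y : B) : K :=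
  tr (x * (ξ ^ n * y))

/-- There are a map `sp` from `M` to `M₀`, a homomorphism of fields `τ` and an injective semilinear
map `s` from `V` to `V₀`, such that `sp` maps the elements with `P` to elements with `P₀`, and `s` maps
`c z` to `c₀ (sp z)` for these. -/
def SpecializesVia (K K₀ : Type*) [Field K] [Field K₀] {V V₀ : Type*} [AddCommGroup V] [Module K V]
    [AddCommGroup V₀] [Module K₀ V₀] {M M₀ : Type*} (c : M → V) (c₀ : M₀ → V₀) (P : M → Prop)
    (P₀ : M₀ → Prop) : Prop :=
  ∃ (τ : K →+* K₀) (sp : M → M₀) (s : V →+ V₀), Function.Injective s ∧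
    (∀ (a : K) (x : V), s (a • x) = τ a • s x) ∧ ∀ z, P z → P₀ (sp z) ∧ s (c z) = c₀ (sp z)

end Lin

variable {k : Type u} [Field k] {𝒱 : VarClass k} {ops : CycleOps 𝒱}

/-- On `H^1(A)`, `P(e^*) = 0`, and the adjoint of `e^*` for the form `tr (x D ^ (dim A - 1) y)` is
`Q(e^*)`, where `P` is squarefree and `Q(z)` is the complex conjugate of `z` for each complex root
`z` of `P`. (The algebra `ℚ[e]` is commutative and semisimple, and the Rosati involution is the
complex conjugation of it: this is the case for all `e` in the centre of the endomorphism algebra.) -/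
def IsRosati (W : WeilCohomology.{u, v} ops) {A : 𝒱.Obj} (D : A.Cycles) (e : A ⟶ A) (P Q : ℚ[X]) :
    Prop :=
  AdjointConjugate (W.gr A 1) (formOf (W.tr A) (W.cl A D) (A.dim - 1)) (W.map e).toLinearMap P Q

/-- The operators on the cohomology of `X` given by the cycles of codimension `dim X` on `X × X`. -/
def cycleMaps (W : WeilCohomology.{u, v} ops) (X : 𝒱.Obj) : Set (Module.End W.K (W.H X)) :=
  (fun z => W.corr (W.cl (X.prod X) z)) '' {z | (X.prod X).IsCyc X.dim z}

/-- The operators of the symmetries in `𝒢` on the cohomology of `X`. -/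
def symmetryMaps {W : WeilCohomology.{u, v} ops} (𝒢 : Set (Symmetry W)) (X : 𝒱.Obj) :
    Set (W.H X → W.H X) :=
  (fun S a => S.σ X a) '' 𝒢

/-- For every irreducible factor `f` of `P` over the coefficient field the kernel of `f(e^*)` on
`H^1(A)` is irreducible under the algebraic correspondences of degree `0` and the symmetries in
`𝒢`. -/
def IrreducibleKernels {W : WeilCohomology.{u, v} ops} (𝒢 : Set (Symmetry W)) (A : 𝒱.Obj)
    (e : A ⟶ A) (P : ℚ[X]) : Prop :=
  KernelsIrreducible (W.gr A 1) (cycleMaps W A) (symmetryMaps 𝒢 A) (W.map e).toLinearMap P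

/-- The conjecture D for `X` in codimension `j`: the class of a cycle of codimension `j` is zero if
its intersection numbers with all cycles of complementary codimension vanish. -/
def HomEqNumAt (W : WeilCohomology.{u, v} ops) (X : 𝒱.Obj) (j : ℕ) : Prop :=
  ∀ z, (j ≤ X.dim ∧ X.IsCyc j z ∧ ∀ w, X.IsCyc (X.dim - j) w → X.V.degCycle (ops.mul z w) = 0) →
    W.cl X z = 0

/-- The injectivity conjecture (Tate's conjecture `I`) for `X` in codimension `j`: cycles of
codimension `j` the classes of which are linearly independent over `ℚ` have classes which are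
linearly independent over the coefficient field. -/
def InjectiveAt (W : WeilCohomology.{u, v} ops) (X : 𝒱.Obj) (j : ℕ) : Prop :=
  IndependenceLifts W.K (W.cl X) (X.IsCyc j)

/-- The cycles of codimension `j` on `X` *specialize* to `X₀` (a variety over another field): there are
a map `sp` from the cycles on `X` to the cycles on `X₀`, a homomorphism of the coefficient fields and
an injective semilinear map `s` between the cohomology groups, such that `s` maps the class of each
cycle `z` of codimension `j` to the class of `sp z`, which has codimension `j`. For instance `X₀` is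
the special fibre of a smooth projective family with generic fibre `X`, with the specialization of
cycles, and `s` is the isomorphism given by smooth and proper base change. -/
def CyclesSpecialize {k₀ : Type u'} [Field k₀] {𝒱₀ : VarClass k₀} {ops₀ : CycleOps 𝒱₀}
    (W : WeilCohomology.{u, v} ops) (W₀ : WeilCohomology.{u', v'} ops₀)
    (X : 𝒱.Obj) (X₀ : 𝒱₀.Obj) (j : ℕ) : Prop :=
  SpecializesVia W.K W₀.K (W.cl X) (W₀.cl X₀) (X.IsCyc j) (X₀.IsCyc j)

end Run7.h152.LI
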