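import Pool.Agent.Run7.h152.LI.Block
import Pool.Agent.Run7.h152.LI.Comm

/-!
# Numerically trivial cycles, push-forwards, components
-/

set_option autoImplicit false

open CategoryTheory AlgebraicGeometry Polynomial

universe u v w

namespace Run7.h152.LI

open Pool.Agent.H914 Pool.Agent.H914.VarClass Pool.Agent.H914.VarClass.Obj
  Pool.Agent.H914.WeilCohomology Pool.Agent.R908

variable {k : Type u} [Field k] {𝒱 : VarClass k} {ops : CycleOps 𝒱}
  {W : WeilCohomology.{u, v} ops} {A Y : 𝒱.Obj} {m : A.prod A ⟶ A} {e : A ⟶ A}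

/-- The endomorphism `e + c`. -/
noncomputable def shift (m : A.prod A ⟶ A) (e : A ⟶ A) : ℕ → (A ⟶ A)
  | 0 => e
  | c + 1 => Obj.lift (shift m e c) (𝟙 A) ≫ m

lemma shift_map (hA : IsAbelianLike W A m) (c : ℕ) {x : W.H A} (hx : x ∈ W.gr A 1) :
    W.map (shift m e c) x = W.map e x + (c : W.K) • x := by
  induction c with
  | zero => rw [shift, Nat.cast_zero, zero_smul, add_zero]
  | succ c ih =>
    rw [shift, W.map_comp, hA.add x hx, map_add, ← W.map_comp, ← W.map_comp, lift_fst, lift_snd,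
      ih, W.map_id, Nat.cast_succ, add_smul, one_smul, add_assoc]

/-- The endomorphism `φ × 1` of `A × Y`. -/
noncomputable def timesId (Y : 𝒱.Obj) (φ : A ⟶ A) : A.prod Y ⟶ A.prod Y :=
  Obj.lift (fst A Y ≫ φ) (snd A Y)

lemma component_push (φ : A ⟶ A) {j : ℕ} {z : (A.prod Y).Cycles} (hz : (A.prod Y).IsCyc j z)
    {n : ℕ} (t : Fin n → W.H A) (y : W.H Y) :
    component W (ops.push (timesId Y φ) z) t y = component W z (fun i => W.map φ (t i)) y := by
  have h1 : (A.prod Y).IsCyc j (ops.push (timesId Y φ) z) := ops.push_mem _ hz rfl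
  rw [component, valueOn, component, valueOn, ← W.even_comm (W.cl_mem h1), W.cl_push, W.tr_push,
    W.even_comm (W.cl_mem hz)]
  congr 2
  rw [map_mul, ← W.map_comp, ← W.map_comp, timesId, lift_snd, lift_fst, W.map_comp]
  congr 2
  rw [map_list_prod, List.map_ofFn]
  rfl

lemma numTriv_push (W : WeilCohomology.{u, v} ops) {X : 𝒱.Obj} (φ : X ⟶ X) {j : ℕ} {z : X.Cycles}
    (hz : IsNumTrivial ops X j z) : IsNumTrivial ops X j (ops.push φ z) := by
  obtain ⟨h1, h2, h3⟩ := hz
  have h4 : X.IsCyc j (ops.push φ z) := ops.push_mem _ h2 rfl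
  refine ⟨h1, h4, fun w hw => ?_⟩
  have h5 := h3 _ (ops.pull_mem φ hw)
  have h6 : X.IsCyc X.dim (ops.mul (ops.push φ z) w) := by
    have := ops.mul_mem h4 hw
    rwa [Nat.add_sub_cancel' h1] at this
  have h7 : X.IsCyc X.dim (ops.mul z (ops.pull φ w)) := by
    have := ops.mul_mem h2 (ops.pull_mem φ hw)
    rwa [Nat.add_sub_cancel' h1] at this
  have h8 : ((X.V.degCycle (ops.mul (ops.push φ z) w) : ℚ) : W.K) =
      ((X.V.degCycle (ops.mul z (ops.pull φ w)) : ℚ) : W.K) := by
    rw [← W.tr_cl h6, ← W.tr_cl h7, W.cl_mul, W.cl_mul, W.cl_push, W.cl_pull, W.tr_push]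
  rw [h5] at h8
  exact_mod_cast h8

/-- The linear form `a ↦ tr (y a cl z)` on the cohomology of `A`. -/
noncomputable def compForm (W : WeilCohomology.{u, v} ops) (z : (A.prod Y).Cycles) (y : W.H Y) :
    W.H A →ₗ[W.K] W.K :=
  W.tr (A.prod Y) ∘ₗ LinearMap.mulRight W.K (W.cl _ z) ∘ₗ
    LinearMap.mulLeft W.K (W.map (snd A Y) y) ∘ₗ (W.map (fst A Y)).toLinearMap

lemma compForm_apply (z : (A.prod Y).Cycles) (y : W.H Y) {n : ℕ} (t : Fin n → W.H A) :
    compForm W z y (List.ofFn t).prod = component W z t y := rfl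

/-- The kernel of `f(e^*)` on `H^1(A)`. -/
noncomputable def ker1 (W : WeilCohomology.{u, v} ops) (e : A ⟶ A) (f : W.K[X]) :
    Submodule W.K (W.H A) :=
  W.gr A 1 ⊓ LinearMap.ker (evalAt W e f)

lemma mem_ker1 {f : W.K[X]} {x : W.H A} : x ∈ ker1 W e f ↔ x ∈ W.gr A 1 ∧ evalAt W e f x = 0 := by
  rw [ker1, Submodule.mem_inf, LinearMap.mem_ker]

lemma ker1_map {f : W.K[X]} {x : W.H A} (hx : x ∈ ker1 W e f) :
    (W.map e).toLinearMap x ∈ ker1 W e f := by
  rw [mem_ker1] at hx ⊢
  refine ⟨W.map_mem e hx.1, ?_⟩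
  have h1 : evalAt W e f ((W.map e).toLinearMap x) = (W.map e).toLinearMap (evalAt W e f x) := by
    have h2 : aeval (W.map e).toLinearMap (f * X) x = aeval (W.map e).toLinearMap (X * f) x := by
      rw [mul_comm]
    rw [map_mul, map_mul, aeval_X, Module.End.mul_apply, Module.End.mul_apply] at h2
    exact h2
  rw [h1, hx.2, map_zero]

/-- `e^*` on the kernel. -/
noncomputable def eker (W : WeilCohomology.{u, v} ops) (e : A ⟶ A) (f : W.K[X]) :
    ker1 W e f →ₗ[W.K] ker1 W e f :=
  (W.map e).toLinearMap.restrict fun _ hx => ker1_map hx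

lemma aeval_eker (f g : W.K[X]) (x : ker1 W e f) :
    ((aeval (eker W e f) g x : ker1 W e f) : W.H A) = evalAt W e g x := by
  induction g using Polynomial.induction_on' generalizing x with
  | add p q hp hq =>
    rw [map_add, LinearMap.add_apply, Submodule.coe_add, hp, hq, evalAt, evalAt, evalAt, map_add,
      LinearMap.add_apply]
  | monomial d b =>
    induction d generalizing x with
    | zero =>
      rw [monomial_zero_left, aeval_C, evalAt, aeval_C, Module.algebraMap_end_apply,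
        Module.algebraMap_end_apply, Submodule.coe_smul]
    | succ d ih =>
      rw [← monomial_mul_X, map_mul, aeval_X, Module.End.mul_apply, ih, evalAt, evalAt, map_mul,
        aeval_X, Module.End.mul_apply]
      rfl

lemma eker_zero (f : W.K[X]) : aeval (eker W e f) f = 0 := by
  apply LinearMap.ext
  intro x
  apply Subtype.ext
  rw [aeval_eker, (mem_ker1.1 x.2).2]
  rfl

end Run7.h152.LI
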