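import Pool.Agent.Run7.h152.LI.Main

/-!
# The conjecture D implies the injectivity conjecture, which lifts from special fibres
-/

set_option autoImplicit false

open CategoryTheory AlgebraicGeometry Polynomial

universe u v u' v'

namespace Run7.h152.LI

open Pool.Agent.H914 Pool.Agent.H914.VarClass Pool.Agent.H914.VarClass.Obj
  Pool.Agent.H914.WeilCohomology Pool.Agent.R908

variable {k : Type u} [Field k] {𝒱 : VarClass k} {ops : CycleOps 𝒱}
  {W : WeilCohomology.{u, v} ops} {X : 𝒱.Obj}
  {k₀ : Type u'} [Field k₀] {𝒱₀ : VarClass k₀} {ops₀ : CycleOps 𝒱₀}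
  {W₀ : WeilCohomology.{u', v'} ops₀} {X₀ : 𝒱₀.Obj}

lemma isCyc_sum {j n : ℕ} {z : Fin n → X.Cycles} (hz : ∀ i, X.IsCyc j (z i)) (q : Fin n → ℚ) :
    X.IsCyc j (∑ i, q i • z i) := by
  classical
  have key : ∀ S : Finset (Fin n), X.IsCyc j (∑ i ∈ S, q i • z i) := by
    intro S
    induction S using Finset.induction_on with
    | empty => rw [Finset.sum_empty]; exact SmVar.IsCyc.zero _ _
    | insert i S hi ih =>
      rw [Finset.sum_insert hi]
      exact SmVar.IsCyc.add (SmVar.IsCyc.smul _ (hz i)) ih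
  exact key Finset.univ

/-- The conjecture D implies the injectivity conjecture, codimension by codimension. -/
theorem injectiveAt_of_homEqNumAt {j : ℕ} (hD : HomEqNumAt W X j) : InjectiveAt W X j := by
  classical
  intro n z hz hq
  rw [Fintype.linearIndependent_iff]
  intro a ha
  by_cases hj : X.dim < j
  · -- no classes in these degrees
    have h0 : ∀ i, W.cl X (z i) = 0 := by
      intro i
      have h1 := W.cl_mem (hz i)
      rw [W.gr_eq_bot X _ (by omega), Submodule.mem_bot] at h1
      exact h1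
    have h1 : ∀ i : Fin n, False := by
      intro i
      have h2 := hq (fun _ => 1) (by
        rw [map_sum]
        apply Finset.sum_eq_zero
        intro i _
        rw [W.cl_smul, h0, smul_zero]) i
      exact one_ne_zero h2
    exact fun i => (h1 i).elim
  push Not at hj
  by_contra hcon
  push Not at hcon
  obtain ⟨i₀, hi₀⟩ := hcon
  obtain ⟨ψ, hψ⟩ := Module.Projective.exists_dual_eq_one ℚ hi₀
  have hψs : ∀ (r : ℚ) (x : W.K), ψ (x * (r : W.K)) = ψ x * r := by
    intro r x
    have h1 : x * (r : W.K) = r • x := by rw [mul_comm, Rat.smul_def]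
    rw [h1, map_smul, smul_eq_mul, mul_comm]
  set q : Fin n → ℚ := fun i => ψ (a i) with hqd
  have hzz := isCyc_sum hz q
  have h1 : IsNumTrivial ops X j (∑ i, q i • z i) := by
    refine ⟨hj, hzz, fun w hw => ?_⟩
    have hmem : ∀ {y : X.Cycles}, X.IsCyc j y → X.IsCyc X.dim (ops.mul y w) := by
      intro y hy
      have := ops.mul_mem hy hw
      rwa [Nat.add_sub_cancel' hj] at this
    have h2 : ∀ {y : X.Cycles}, X.IsCyc j y → W.tr X (W.cl X y * W.cl X w) =
        ((X.V.degCycle (ops.mul y w) : ℚ) : W.K) := by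
      intro y hy
      rw [← W.tr_cl (hmem hy), W.cl_mul]
    have h3 : ∑ i, a i * ((X.V.degCycle (ops.mul (z i) w) : ℚ) : W.K) = 0 := by
      have h4 := congrArg (fun x => W.tr X (x * W.cl X w)) ha
      beta_reduce at h4
      rw [Finset.sum_mul, map_sum, zero_mul, map_zero] at h4
      rw [← h4]
      apply Finset.sum_congr rfl
      intro i _
      rw [smul_mul_assoc, map_smul, smul_eq_mul, h2 (hz i)]
    have h4 : ∑ i, q i * X.V.degCycle (ops.mul (z i) w) = 0 := by
      have h5 := congrArg ψ h3
      rw [map_sum, map_zero] at h5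
      rw [← h5]
      apply Finset.sum_congr rfl
      intro i _
      rw [hψs]
    have h5 : ((X.V.degCycle (ops.mul (∑ i, q i • z i) w) : ℚ) : W.K) = 0 := by
      rw [← h2 hzz, map_sum, Finset.sum_mul, map_sum]
      have h6 : ∀ i, W.tr X (W.cl X (q i • z i) * W.cl X w) =
          ((q i * X.V.degCycle (ops.mul (z i) w) : ℚ) : W.K) := by
        intro i
        rw [W.cl_smul, smul_mul_assoc, map_smul, smul_eq_mul, h2 (hz i), Rat.cast_mul]
      rw [Finset.sum_congr rfl fun i _ => h6 i, ← Rat.cast_sum, h4, Rat.cast_zero]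
    exact_mod_cast h5
  have h2 := hq q (hD _ h1) i₀
  rw [hqd] at h2
  beta_reduce at h2
  rw [hψ] at h2
  exact one_ne_zero h2

/-- The injectivity conjecture lifts from the special fibre. -/
theorem CyclesSpecialize.injectiveAt {j : ℕ} (h : CyclesSpecialize W W₀ X X₀ j)
    (h₀ : InjectiveAt W₀ X₀ j) : InjectiveAt W X j := by
  obtain ⟨τ, sp, s, hinj, hs, hcl⟩ := h
  intro n z hz hq
  have h1 := h₀ n (fun i => sp (z i)) (fun i => (hcl _ (hz i)).1) (by
    intro q hq0
    apply hq
    apply hinj
    rw [map_zero, ← hq0, map_sum, map_sum, map_sum]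
    apply Finset.sum_congr rfl
    intro i _
    rw [W.cl_smul, W₀.cl_smul, hs, map_ratCast, (hcl _ (hz i)).2])
  rw [Fintype.linearIndependent_iff] at h1 ⊢
  intro a ha
  have h2 := h1 (fun i => τ (a i)) (by
    have h3 := congrArg s ha
    rw [map_sum, map_zero] at h3
    rw [← h3]
    apply Finset.sum_congr rfl
    intro i _
    rw [hs, (hcl _ (hz i)).2])
  intro i
  exact (map_eq_zero τ).1 (h2 i)

end Run7.h152.LI
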